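import Pool.Agent.H61.KU.TT
import Pool.Agent.H24.LB.PL1

/-!
Module CAP (T08) of the board ku_modules (MP_c11ac4_gt): lifts over the caps.
-/

set_option autoImplicit false

open Set Topology
open Pool.Agent.H59 Pool.Agent.H64.LB Pool.Agent.H24.LB Pool.Agent.H61.KU
open scoped unitInterval

namespace Pool.Agent.H33.KU

theorem sum_S2 (x : S2) : x.1 0 ^ 2 + x.1 1 ^ 2 + x.1 2 ^ 2 = 1 := by
  have := x.2
  rwa [Fin.sum_univ_three] at this

/-- the closed cap -/
abbrev Cap : Type := {x : S2 // -(1 / 2 : ℝ) ≤ x.1 2}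

/-- the vector `t x + (1 - t) e` -/
def wv (x : Fin 3 → ℝ) (t : ℝ) : Fin 3 → ℝ := ![t * x 0, t * x 1, t * x 2 + (1 - t)]

theorem wv_sum (x : S2) (t : ℝ) :
    ∑ i, wv x.1 t i ^ 2 = t ^ 2 + (1 - t) ^ 2 + 2 * t * (1 - t) * x.1 2 := by
  have h := sum_S2 x
  rw [Fin.sum_univ_three]
  have e0 : wv x.1 t 0 = t * x.1 0 := rfl
  have e1 : wv x.1 t 1 = t * x.1 1 := rfl
  have e2 : wv x.1 t 2 = t * x.1 2 + (1 - t) := rfl
  rw [e0, e1, e2]
  linear_combination t ^ 2 * h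

theorem wv_pos (x : Cap) (t : I) : 0 < ∑ i, wv x.1.1 t i ^ 2 := by
  rw [wv_sum]
  have h1 := x.2
  have h2 := t.2.1
  have h3 := t.2.2
  have h4 : 0 ≤ (t : ℝ) * (1 - t) := mul_nonneg h2 (by linarith)
  have h5 : (t : ℝ) * (1 - t) * (-(1 / 2)) ≤ (t : ℝ) * (1 - t) * x.1.1 2 :=
    mul_le_mul_of_nonneg_left h1 h4
  nlinarith [sq_nonneg ((t : ℝ) - 1 / 2)]

theorem continuous_wv : Continuous (fun p : Cap × I => wv p.1.1.1 (p.2 : ℝ)) := by
  have h1 : ∀ i, Continuous (fun p : Cap × I => p.1.1.1 i) := fun i =>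
    (continuous_apply i).comp (continuous_subtype_val.comp (continuous_subtype_val.comp
      continuous_fst))
  have h2 : Continuous (fun p : Cap × I => (p.2 : ℝ)) := continuous_subtype_val.comp continuous_snd
  refine continuous_pi fun i => ?_
  fin_cases i
  · exact h2.mul (h1 0)
  · exact h2.mul (h1 1)
  · exact (h2.mul (h1 2)).add (continuous_const.sub h2)

/-- the contraction of the closed cap to the pole, in the sphere -/
noncomputable def capH : C(Cap × I, S2) where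
  toFun p := ⟨fun i => wv p.1.1.1 (p.2 : ℝ) i / Real.sqrt (∑ j, wv p.1.1.1 (p.2 : ℝ) j ^ 2), by
    have h := wv_pos p.1 p.2
    have h2 : ∀ i, (wv p.1.1.1 (p.2 : ℝ) i / Real.sqrt (∑ j, wv p.1.1.1 (p.2 : ℝ) j ^ 2)) ^ 2 =
        wv p.1.1.1 (p.2 : ℝ) i ^ 2 / (∑ j, wv p.1.1.1 (p.2 : ℝ) j ^ 2) := by
      intro i
      rw [div_pow, Real.sq_sqrt h.le]
    rw [Finset.sum_congr rfl (fun i _ => h2 i), ← Finset.sum_div, div_self h.ne']⟩
  continuous_toFun := by
    refine Continuous.subtype_mk ?_ _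
    have h1 : ∀ i, Continuous (fun p : Cap × I => wv p.1.1.1 (p.2 : ℝ) i) := fun i =>
      (continuous_apply i).comp continuous_wv
    refine continuous_pi fun i => ?_
    refine (h1 i).div ?_ (fun p => (Real.sqrt_pos.mpr (wv_pos p.1 p.2)).ne')
    exact Real.continuous_sqrt.comp (continuous_finsetSum _ fun j _ => (h1 j).pow 2)

/-- the pole -/
def pole : S2 := ⟨![0, 0, 1], by rw [Fin.sum_univ_three]; simp⟩

theorem capH_zero (x : Cap) : capH (x, 0) = pole := by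
  apply Subtype.ext
  funext i
  change wv x.1.1 ((0 : I) : ℝ) i / Real.sqrt (∑ j, wv x.1.1 ((0 : I) : ℝ) j ^ 2) =
    (![0, 0, 1] : Fin 3 → ℝ) i
  rw [wv_sum, Set.Icc.coe_zero]
  have h1 : Real.sqrt ((0 : ℝ) ^ 2 + (1 - 0) ^ 2 + 2 * 0 * (1 - 0) * x.1.1 2) = 1 := by
    rw [show ((0 : ℝ) ^ 2 + (1 - 0) ^ 2 + 2 * 0 * (1 - 0) * x.1.1 2) = 1 by ring, Real.sqrt_one]
  rw [h1, div_one]
  fin_cases i <;> simp [wv]

theorem capH_one (x : Cap) : capH (x, 1) = x.1 := by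
  apply Subtype.ext
  funext i
  change wv x.1.1 ((1 : I) : ℝ) i / Real.sqrt (∑ j, wv x.1.1 ((1 : I) : ℝ) j ^ 2) = x.1.1 i
  rw [wv_sum, Set.Icc.coe_one]
  have h1 : Real.sqrt ((1 : ℝ) ^ 2 + (1 - 1) ^ 2 + 2 * 1 * (1 - 1) * x.1.1 2) = 1 := by
    rw [show ((1 : ℝ) ^ 2 + (1 - 1) ^ 2 + 2 * 1 * (1 - 1) * x.1.1 2) = 1 by ring, Real.sqrt_one]
  rw [h1, div_one]
  fin_cases i <;> simp [wv]

theorem cap_up (hL : T_LIF) (δ : C(S2, PN 1)) : ∃ g : C(Dp, NZ 1), ∀ x, pt (g x) = δ x.1 := by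
  have hcS : CompactSpace S2 := compact_S2
  have hcC : CompactSpace Cap := by
    have h : IsCompact {x : S2 | -(1 / 2 : ℝ) ≤ x.1 2} := (isClosed_le continuous_const
      ((continuous_apply 2).comp continuous_subtype_val)).isCompact
    exact isCompact_iff_compactSpace.1 h
  obtain ⟨g, hg⟩ := hL Cap (δ.comp capH) (δ pole) (fun x => by
    change δ (capH (x, 0)) = δ pole
    rw [capH_zero])
  let j : C(Dp, Cap) := ⟨fun x => ⟨x.1, le_of_lt x.2⟩, continuous_subtype_val.subtype_mk _⟩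
  refine ⟨g.comp j, fun x => ?_⟩
  change pt (g (j x)) = δ x.1
  rw [hg (j x)]
  change δ (capH (j x, 1)) = δ x.1
  rw [capH_one]
  rfl

/-- the reflection in the equator -/
def flipS : C(S2, S2) where
  toFun x := ⟨![x.1 0, x.1 1, -x.1 2], by
    rw [Fin.sum_univ_three]
    have := sum_S2 x
    simpa using this⟩
  continuous_toFun := by
    refine Continuous.subtype_mk ?_ _
    have h1 : ∀ i, Continuous (fun x : S2 => x.1 i) := fun i =>
      (continuous_apply i).comp continuous_subtype_val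
    refine continuous_pi fun i => ?_
    fin_cases i
    · exact h1 0
    · exact h1 1
    · exact (h1 2).neg

theorem flip_flip (x : S2) : flipS (flipS x) = x := by
  apply Subtype.ext
  funext i
  fin_cases i
  · rfl
  · rfl
  · change - -x.1 2 = x.1 2
    rw [neg_neg]

theorem pf_cap (hL : T_LIF) : T_CAP := by
  intro δ
  refine ⟨cap_up hL δ, ?_⟩
  obtain ⟨g, hg⟩ := cap_up hL (δ.comp flipS)
  have hmem : ∀ x : Dm, flipS x.1 ∈ Dp := by
    intro x
    have h : x.1.1 2 < 1 / 2 := x.2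
    change -(1 / 2 : ℝ) < -x.1.1 2
    linarith
  let j : C(Dm, Dp) := ⟨fun x => ⟨flipS x.1, hmem x⟩,
    (flipS.continuous.comp continuous_subtype_val).subtype_mk hmem⟩
  refine ⟨g.comp j, fun x => ?_⟩
  change pt (g (j x)) = δ x.1
  rw [hg (j x)]
  change δ (flipS (flipS x.1)) = δ x.1
  rw [flip_flip]

end Pool.Agent.H33.KU
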