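import Pool.Agent.H61.KU.TA

/-!
Module CPX (A07) of the board ku_modules (MP_c11ac4_gt): complements of embedded complexes of
dimension at most 2.
-/

set_option autoImplicit false

open Set Topology
open Pool.Agent.H59 Pool.Agent.H64.LB Pool.Agent.H61.KU

namespace Pool.Agent.H33.KU

theorem bij_of_inv (R : Type) [CommRing R] (q : ℕ) {X Y : Type} [TopologicalSpace X]
    [TopologicalSpace Y] (f : C(X, Y)) (g : C(Y, X)) (h1 : g.comp f = ContinuousMap.id X)
    (h2 : f.comp g = ContinuousMap.id Y) : Function.Bijective (HH.map R q f) := by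
  have e1 : ∀ z, HH.map R q g (HH.map R q f z) = z := by
    intro z
    rw [← HH.map_comp, h1, HH.map_id]
  have e2 : ∀ z, HH.map R q f (HH.map R q g z) = z := by
    intro z
    rw [← HH.map_comp, h2, HH.map_id]
  exact ⟨Function.LeftInverse.injective e1, Function.RightInverse.surjective e2⟩

theorem EL_empty (Y : Type) [TopologicalSpace Y] (j : ℕ) : EL Y j ∅ := by
  let g : C(Y, ↥((∅ : Set Y)ᶜ)) := ⟨fun y => ⟨y, by simp⟩, by fun_prop⟩
  have h : ∀ q, Function.Bijective (HH.map (ZMod 2) q (inc ((∅ : Set Y)ᶜ))) := by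
    intro q
    refine bij_of_inv (ZMod 2) q (inc ((∅ : Set Y)ᶜ)) g ?_ ?_
    · ext x
      rfl
    · ext x
      rfl
  exact ⟨fun q _ => (h q).1, fun q _ => (h q).2⟩

theorem EL_of_cellLike (Y : Type) [TopologicalSpace Y] (j : ℕ) (hj : j ≤ 2) (A : Set Y)
    (h : CellLike Y A) : EL Y j A :=
  ⟨fun q hq => (h.1 q (by omega)).1, fun q hq => (h.1 q (by omega)).2⟩

theorem hull_inter {ι V : Type} [Fintype ι] [DecidableEq ι] [NormedAddCommGroup V]
    [NormedSpace ℝ V] {v : ι → V} (hv : AffineIndependent ℝ v) (s t : Finset ι) :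
    convexHull ℝ (v '' ((s ∩ t : Finset ι) : Set ι)) =
      convexHull ℝ (v '' (s : Set ι)) ∩ convexHull ℝ (v '' (t : Set ι)) := by
  classical
  have h1 : AffineIndependent ℝ (fun x : ↥(Finset.univ.image v) => (x : V)) := by
    have h2 := hv.range
    refine AffineIndependent.mono h2 (s := ((Finset.univ.image v : Finset V) : Set V)) ?_
    rw [Finset.coe_image, Finset.coe_univ, Set.image_univ]
  have h3 := h1.convexHull_inter (t₁ := s.image v) (t₂ := t.image v)
    (Finset.image_subset_image (Finset.subset_univ _))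
    (Finset.image_subset_image (Finset.subset_univ _))
  rw [Finset.coe_image, Finset.coe_image, ← Set.image_inter hv.injective] at h3
  rw [Finset.coe_inter]
  exact h3

theorem cell_of_hull (hE : T_CEE) {Y : Type} [TopologicalSpace Y] [T2Space Y] [CompactSpace Y]
    (hY : PtLike Y) {V : Type} [NormedAddCommGroup V] [NormedSpace ℝ V] [FiniteDimensional ℝ V]
    (f : C(Y, V)) (hf : Function.Injective f) (C : Set V) (hC : IsCompact C) (hCv : Convex ℝ C)
    (hCn : C.Nonempty) (hCf : C ⊆ range f) : CellLike Y (f ⁻¹' C) := by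
  obtain ⟨v0, hv0⟩ := hCn
  obtain ⟨y0, _⟩ := hCf hv0
  have hne : Nonempty Y := ⟨y0⟩
  have hli : Function.LeftInverse (Function.invFun f) f := Function.leftInverse_invFun hf
  have himg : Function.invFun f '' C = f ⁻¹' C := by
    ext y
    constructor
    · rintro ⟨v, hv, rfl⟩
      obtain ⟨y, rfl⟩ := hCf hv
      rw [hli y]
      exact hv
    · intro hy
      exact ⟨f y, hy, hli y⟩
  rw [← himg]
  refine hE Y hY V C (Function.invFun f) hC hCv ⟨v0, hv0⟩ ?_ ?_
  · have hemb : IsClosedEmbedding f := f.continuous.isClosedEmbedding hf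
    rw [hemb.isInducing.continuousOn_iff]
    refine continuousOn_id.congr ?_
    intro v hv
    obtain ⟨y, rfl⟩ := hCf hv
    change f (Function.invFun f (f y)) = f y
    rw [hli y]
  · intro v hv w hw hvw
    obtain ⟨y, rfl⟩ := hCf hv
    obtain ⟨z, rfl⟩ := hCf hw
    rw [hli y, hli z] at hvw
    rw [hvw]

theorem pf_cpx (hE : T_CEE) (hA : T_ADD) : T_CPX := by
  intro Y _ _ _ hY ι V _ _ _ _ _ f v hf hv d
  have hcomp : ∀ s : Finset ι, IsCompact (convexHull ℝ (v '' (s : Set ι))) := by
    intro s
    exact (s.finite_toSet.image v).isCompact_convexHull ℝ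
  have hclosed : ∀ K : Finset (Finset ι),
      IsClosed (f ⁻¹' (⋃ s ∈ K, convexHull ℝ (v '' (s : Set ι)))) := by
    intro K
    refine IsClosed.preimage f.continuous ?_
    exact isClosed_biUnion_finset (fun s _ => (hcomp s).isClosed)
  induction d with
  | zero =>
    intro K _ hK
    have h1 : f ⁻¹' (⋃ s ∈ K, convexHull ℝ (v '' (s : Set ι))) = ∅ := by
      rw [Set.eq_empty_iff_forall_notMem]
      intro y hy
      rw [Set.mem_preimage, Set.mem_iUnion₂] at hy
      obtain ⟨s, hs, hys⟩ := hy
      have h2 : s = ∅ := Finset.card_eq_zero.mp (Nat.le_zero.mp (hK s hs).1)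
      rw [h2, Finset.coe_empty, Set.image_empty, convexHull_empty] at hys
      exact hys
    rw [h1]
    exact EL_empty Y _
  | succ d ihd =>
    intro K hd
    induction K using Finset.induction_on with
    | empty =>
      intro _
      have h1 : f ⁻¹' (⋃ s ∈ (∅ : Finset (Finset ι)), convexHull ℝ (v '' (s : Set ι))) = ∅ := by
        simp
      rw [h1]
      exact EL_empty Y _
    | insert s K hsK ih =>
      intro hK
      have hKA := ih (fun t ht => hK t (Finset.mem_insert_of_mem ht))
      have hins : f ⁻¹' (⋃ t ∈ insert s K, convexHull ℝ (v '' (t : Set ι))) =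
          f ⁻¹' (⋃ t ∈ K, convexHull ℝ (v '' (t : Set ι))) ∪
            f ⁻¹' (convexHull ℝ (v '' (s : Set ι))) := by
        rw [Finset.set_biUnion_insert, Set.preimage_union, Set.union_comm]
      rw [hins]
      by_cases hs0 : s = ∅
      · have h1 : f ⁻¹' (convexHull ℝ (v '' (s : Set ι))) = ∅ := by
          rw [hs0, Finset.coe_empty, Set.image_empty, convexHull_empty, Set.preimage_empty]
        rw [h1, Set.union_empty]
        exact hKA
      by_cases hst : ∃ t ∈ K, s ⊆ t
      · obtain ⟨t, ht, hst⟩ := hst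
        have h1 : f ⁻¹' (convexHull ℝ (v '' (s : Set ι))) ⊆
            f ⁻¹' (⋃ t ∈ K, convexHull ℝ (v '' (t : Set ι))) := by
          refine Set.preimage_mono ?_
          refine (convexHull_mono (Set.image_mono (Finset.coe_subset.mpr hst))).trans ?_
          exact Set.subset_biUnion_of_mem (u := fun t : Finset ι => convexHull ℝ (v '' (t : Set ι)))
            ht
        rw [Set.union_eq_self_of_subset_right h1]
        exact hKA
      have hs1 := hK s (Finset.mem_insert_self s K)
      have hsne : s.Nonempty := Finset.nonempty_iff_ne_empty.mpr hs0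
      have hcell : CellLike Y (f ⁻¹' (convexHull ℝ (v '' (s : Set ι)))) := by
        refine cell_of_hull hE hY f hf _ (hcomp s) (convex_convexHull ℝ _) ?_ hs1.2
        obtain ⟨i, hi⟩ := hsne
        exact ⟨v i, subset_convexHull ℝ _ ⟨i, hi, rfl⟩⟩
      refine hA Y _ _ _ (hclosed K) ((hcomp s).isClosed.preimage f.continuous) hKA
        (EL_of_cellLike Y _ (by omega) _ hcell) ?_
      have h2 := ihd (K.image (fun t => t ∩ s)) (by omega) (by
        intro u hu
        obtain ⟨t, ht, rfl⟩ := Finset.mem_image.mp hu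
        constructor
        · have h3 : t ∩ s ⊂ s := by
            refine Finset.ssubset_iff_subset_ne.mpr ⟨Finset.inter_subset_right, ?_⟩
            intro h4
            exact hst ⟨t, ht, Finset.inter_eq_right.mp h4⟩
          have h5 := Finset.card_lt_card h3
          omega
        · refine (convexHull_mono (Set.image_mono ?_)).trans hs1.2
          exact Finset.coe_subset.mpr Finset.inter_subset_right)
      have h6 : f ⁻¹' (⋃ u ∈ K.image (fun t => t ∩ s), convexHull ℝ (v '' (u : Set ι))) =
          f ⁻¹' (⋃ t ∈ K, convexHull ℝ (v '' (t : Set ι))) ∩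
            f ⁻¹' (convexHull ℝ (v '' (s : Set ι))) := by
        rw [← Set.preimage_inter]
        congr 1
        rw [Finset.set_biUnion_finset_image, Set.iUnion₂_inter]
        refine Set.iUnion₂_congr (fun t _ => ?_)
        exact hull_inter hv t s
      rw [h6] at h2
      have h7 : 3 - (d + 1) + 1 = 3 - d := by omega
      rw [h7]
      exact h2

end Pool.Agent.H33.KU
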