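import Pool.Agent.H61.KU.TB

/-!
Module FCV (B07) of the board ku_modules (MP_c11ac4_gt): hulls of faces.
-/

set_option autoImplicit false

open Set Topology
open Pool.Agent.H61.KU

namespace Pool.Agent.H33.KU

theorem lin_sum {ι : Type} (v : ι → E8) (l : E8 × ℝ →ₗ[ℝ] ℝ) (t : Finset ι) (c : ι → ℝ)
    (hc : ∑ i ∈ t, c i = 1) : l (∑ i ∈ t, c i • v i, 1) = ∑ i ∈ t, c i * l (hom v i) := by
  have h1 : ((∑ i ∈ t, c i • v i, 1) : E8 × ℝ) = ∑ i ∈ t, c i • hom v i := by
    refine Prod.ext ?_ ?_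
    · rw [Prod.fst_sum]
      rfl
    · rw [Prod.snd_sum]
      change (1 : ℝ) = ∑ i ∈ t, c i * 1
      rw [← Finset.sum_mul, hc, mul_one]
  rw [h1, map_sum]
  refine Finset.sum_congr rfl (fun i _ => ?_)
  rw [map_smul, smul_eq_mul]

theorem hull_weights {ι : Type} [Fintype ι] (v : ι → E8) {x : E8}
    (hx : x ∈ convexHull ℝ (range v)) :
    ∃ w : ι → ℝ, (∀ i, 0 ≤ w i) ∧ ∑ i, w i = 1 ∧ ∑ i, w i • v i = x := by
  classical
  rw [convexHull_range_eq_exists_affineCombination] at hx
  obtain ⟨s, w, hw0, hw1, hx⟩ := hx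
  rw [Finset.affineCombination_eq_linear_combination s v w hw1] at hx
  refine ⟨fun i => if i ∈ s then w i else 0, ?_, ?_, ?_⟩
  · intro i
    by_cases hi : i ∈ s
    · simp only [hi, if_true]
      exact hw0 i hi
    · simp only [hi, if_false]
      exact le_rfl
  · rw [Finset.sum_ite_mem, Finset.univ_inter]
    exact hw1
  · rw [← hx]
    simp only [ite_smul, zero_smul]
    rw [Finset.sum_ite_mem, Finset.univ_inter]

theorem lin_comb (l : E8 × ℝ →ₗ[ℝ] ℝ) (x y : E8) (a b : ℝ) (hab : a + b = 1) :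
    l (a • x + b • y, 1) = a * l (x, 1) + b * l (y, 1) := by
  have h1 : ((a • x + b • y, 1) : E8 × ℝ) = a • (x, (1 : ℝ)) + b • (y, (1 : ℝ)) := by
    refine Prod.ext rfl ?_
    change (1 : ℝ) = a * 1 + b * 1
    rw [mul_one, mul_one, hab]
  rw [h1, map_add, map_smul, map_smul, smul_eq_mul, smul_eq_mul]

theorem fcv_a {ι : Type} [Fintype ι] (v : ι → E8) (F : Finset ι)
    (l : E8 × ℝ →ₗ[ℝ] ℝ) (hl : ∀ i, 0 ≤ l (hom v i)) (hF : ∀ i, l (hom v i) = 0 ↔ i ∈ F) :
    (∀ x ∈ convexHull ℝ (range v), 0 ≤ l (x, 1)) ∧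
      ∀ x ∈ convexHull ℝ (range v), l (x, 1) = 0 ↔ x ∈ cv v F := by
  classical
  constructor
  · intro x hx
    have hconv : Convex ℝ {x : E8 | 0 ≤ l (x, 1)} := by
      intro x hx y hy a b ha hb hab
      change 0 ≤ l (a • x + b • y, 1)
      rw [lin_comb l x y a b hab]
      exact add_nonneg (mul_nonneg ha hx) (mul_nonneg hb hy)
    refine convexHull_min ?_ hconv hx
    rintro _ ⟨i, rfl⟩
    exact hl i
  · intro x hx
    constructor
    · intro h0
      obtain ⟨w, hw0, hw1, rfl⟩ := hull_weights v hx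
      rw [lin_sum v l Finset.univ w hw1] at h0
      rw [Finset.sum_eq_zero_iff_of_nonneg (fun i _ => mul_nonneg (hw0 i) (hl i))] at h0
      have hz : ∀ i, i ∉ F → w i = 0 := by
        intro i hi
        rcases mul_eq_zero.mp (h0 i (Finset.mem_univ i)) with h | h
        · exact h
        · exact absurd ((hF i).mp h) hi
      have e1 : ∑ i, w i = ∑ i ∈ F, w i :=
        (Finset.sum_subset (Finset.subset_univ F) (fun i _ hi => hz i hi)).symm
      have e2 : ∑ i, w i • v i = ∑ i ∈ F, w i • v i :=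
        (Finset.sum_subset (Finset.subset_univ F) (fun i _ hi => by rw [hz i hi, zero_smul])).symm
      rw [e2]
      refine (convex_convexHull ℝ _).sum_mem (fun i _ => hw0 i) (e1 ▸ hw1) (fun i hi => ?_)
      exact subset_convexHull ℝ _ ⟨i, hi, rfl⟩
    · intro hxF
      have hconv : Convex ℝ {x : E8 | l (x, 1) = 0} := by
        intro x hx y hy a b _ _ hab
        change l (a • x + b • y, 1) = 0
        rw [lin_comb l x y a b hab, show l (x, 1) = 0 from hx, show l (y, 1) = 0 from hy,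
          mul_zero, mul_zero, add_zero]
      refine convexHull_min ?_ hconv hxF
      rintro _ ⟨i, hi, rfl⟩
      exact (hF i).mpr hi

theorem cv_mono {ι : Type} (v : ι → E8) {F G : Finset ι} (h : F ⊆ G) : cv v F ⊆ cv v G :=
  convexHull_mono (Set.image_mono (Finset.coe_subset.mpr h))

theorem cv_sub {ι : Type} (v : ι → E8) (F : Finset ι) : cv v F ⊆ convexHull ℝ (range v) :=
  convexHull_mono (Set.image_subset_range _ _)

theorem pf_fcv : T_FCV := by
  intro ι _ _ v
  refine ⟨fun F l hl hF => fcv_a v F l hl hF, ?_, fun F G h => cv_mono v h, ?_, ?_⟩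
  · rintro F G ⟨lF, hF1, hF2⟩ ⟨lG, hG1, hG2⟩
    apply Set.Subset.antisymm
    · rintro x ⟨hxF, hxG⟩
      have hx := cv_sub v F hxF
      have h1 := ((fcv_a v F lF hF1 hF2).2 x hx).mpr hxF
      have h2 := ((fcv_a v G lG hG1 hG2).2 x hx).mpr hxG
      refine ((fcv_a v (F ∩ G) (lF + lG) (fun i => ?_) (fun i => ?_)).2 x hx).mp ?_
      · rw [LinearMap.add_apply]
        exact add_nonneg (hF1 i) (hG1 i)
      · rw [LinearMap.add_apply, Finset.mem_inter, ← hF2 i, ← hG2 i]
        have h3 := hF1 i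
        have h4 := hG1 i
        constructor
        · intro h
          constructor <;> linarith
        · rintro ⟨h5, h6⟩
          rw [h5, h6, add_zero]
      · rw [LinearMap.add_apply, h1, h2, add_zero]
    · exact Set.subset_inter (cv_mono v Finset.inter_subset_left)
        (cv_mono v Finset.inter_subset_right)
  · intro F
    exact ⟨cv_sub v F, (F.finite_toSet.image v).isCompact_convexHull ℝ⟩
  · rintro F hF hne
    have hcard : (0 : ℝ) < F.card := by exact_mod_cast hne.card_pos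
    have hsum : ∑ _i ∈ F, (1 / (F.card : ℝ)) = 1 := by
      rw [Finset.sum_const, nsmul_eq_mul]
      field_simp
    refine ⟨∑ i ∈ F, (1 / (F.card : ℝ)) • v i, ?_, ?_⟩
    · refine (convex_convexHull ℝ _).sum_mem (fun i _ => by positivity) hsum (fun i hi => ?_)
      exact subset_convexHull ℝ _ ⟨i, hi, rfl⟩
    · rintro G ⟨l, hl1, hl2⟩ hGF hw
      obtain ⟨i, hiF, hiG⟩ := Finset.exists_of_ssubset hGF
      have h1 := ((fcv_a v G l hl1 hl2).2 _ (cv_sub v G hw)).mpr hw
      rw [lin_sum v l F _ hsum] at h1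
      rw [Finset.sum_eq_zero_iff_of_nonneg (fun j _ => mul_nonneg (by positivity) (hl1 j))] at h1
      rcases mul_eq_zero.mp (h1 i hiF) with h2 | h2
      · have : (0 : ℝ) < 1 / (F.card : ℝ) := by positivity
        rw [h2] at this
        exact lt_irrefl _ this
      · exact hiG ((hl2 i).mp h2)

end Pool.Agent.H33.KU
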