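import Pool.Agent.H61.KU.TT

/-!
Module OV (T04) of the board ku_modules (MP_c11ac4_gt): the inclusion `GA ∩ VA → VA` is injective
on `H_3`.
-/

set_option autoImplicit false

open Set Topology
open Pool.Agent.H59 Pool.Agent.H64.LB Pool.Agent.H24.LB Pool.Agent.H61.KU

namespace Pool.Agent.H33.KU

theorem isOpen_GA (α : C(S2, NN)) : IsOpen (GA α) := by
  have : T2Space (PN 1) := (pnt 1).2
  exact isOpen_ne_fun (rho.continuous.comp continuous_snd)
    ((rho.continuous.comp α.continuous).comp continuous_fst)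

theorem isOpen_VA (α : C(S2, NN)) : IsOpen (VA α) := by
  have : T2Space (PN 1) := (pnt 1).2
  have : T2Space (PN 2) := (pnt 2).2
  refine IsOpen.inter ?_ ?_
  · exact isOpen_ne_fun continuous_snd (α.continuous.comp continuous_fst)
  · exact isOpen_ne_fun (rho.continuous.comp continuous_snd)
      (perp.continuous.comp ((rho.continuous.comp α.continuous).comp continuous_fst))

theorem ov_one {T X : Type} [TopologicalSpace T] [TopologicalSpace X]
    (hT : Function.Injective (HH.map (ZMod 2) 3 (ContinuousMap.fst : C(T × Cx, T))))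
    (Φ : T × ℂ → X) (hΦ : IsOpenEmbedding Φ) (U : Set X)
    (hU : ∀ x, Φ x ∈ U ↔ x.2 ≠ 0) :
    Function.Injective (HH.map (ZMod 2) 3 (incR U (range Φ))) := by
  let e : T × ℂ ≃ₜ range Φ := hΦ.isEmbedding.toHomeomorph
  have he : ∀ x, (e x).1 = Φ x := fun x => rfl
  have hsymm : ∀ x : ↥(range Φ), Φ (e.symm x) = x.1 := by
    intro x
    rw [← he, e.apply_symm_apply]
  have hne : ∀ x : ↥(U ∩ range Φ), (e.symm ⟨x.1, x.2.2⟩).2 ≠ 0 := by
    intro x
    rw [← hU, hsymm]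
    exact x.2.1
  have hc0 : Continuous (fun x : ↥(U ∩ range Φ) => e.symm ⟨x.1, x.2.2⟩) :=
    e.symm.continuous.comp (continuous_subtype_val.subtype_mk _)
  let ψ : C(↥(U ∩ range Φ), T × Cx) :=
    ⟨fun x => ((e.symm ⟨x.1, x.2.2⟩).1, ⟨(e.symm ⟨x.1, x.2.2⟩).2, hne x⟩),
      (continuous_fst.comp hc0).prodMk ((continuous_snd.comp hc0).subtype_mk _)⟩
  let ψ' : C(T × Cx, ↥(U ∩ range Φ)) :=
    ⟨fun p => ⟨Φ (p.1, p.2.1), (hU _).mpr p.2.2, ⟨_, rfl⟩⟩,
      (hΦ.continuous.comp (continuous_fst.prodMk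
        (continuous_subtype_val.comp continuous_snd))).subtype_mk _⟩
  have hψ : ψ'.comp ψ = ContinuousMap.id _ := by
    ext x
    change Φ ((e.symm ⟨x.1, x.2.2⟩).1, (e.symm ⟨x.1, x.2.2⟩).2) = x.1
    exact hsymm ⟨x.1, x.2.2⟩
  let θ : C(↥(range Φ), T) := ⟨fun x => (e.symm x).1, continuous_fst.comp e.symm.continuous⟩
  have hcomp : (ContinuousMap.fst : C(T × Cx, T)).comp ψ = θ.comp (incR U (range Φ)) := by
    ext x
    rfl
  have hψi : Function.Injective (HH.map (ZMod 2) 3 ψ) := by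
    have e1 : ∀ z, HH.map (ZMod 2) 3 ψ' (HH.map (ZMod 2) 3 ψ z) = z := by
      intro z
      rw [← HH.map_comp, hψ, HH.map_id]
    exact Function.LeftInverse.injective e1
  intro a b hab
  apply hψi
  apply hT
  rw [← HH.map_comp, ← HH.map_comp, hcomp, HH.map_comp, HH.map_comp, hab]

theorem pf_ov (hM : T_MVS) (hP : T_PHI) (hK : T_KC) : T_OV := by
  intro α hUU
  obtain ⟨Φ, hΦ, hr, hcov, hmem⟩ := hP α
  obtain ⟨mv⟩ := hM (ZMod 2)
  have hinj2 : Function.Injective (HH.map (ZMod 2) 3 (incR (GA α ∩ VA α) (range Φ))) := by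
    have hmem2 : ∀ x, Φ x ∈ GA α ∩ VA α ↔ x.2 ≠ 0 := by
      intro x
      rw [← hmem x]
      exact ⟨fun h => h.1, fun h => ⟨h, hr ⟨x, rfl⟩⟩⟩
    exact ov_one (hK _ hUU) Φ hΦ (GA α ∩ VA α) hmem2
  rw [injective_iff_map_eq_zero]
  intro a ha
  have hsub : VA α ⊆ (GA α ∩ VA α) ∪ range Φ := by
    intro x hx
    rcases hcov hx with h | h
    · exact Or.inl ⟨h, hx⟩
    · exact Or.inr h
  have h1 : HH.map (ZMod 2) 3 (incUL (GA α ∩ VA α) (range Φ)) a = 0 := by
    have h2 : incUL (GA α ∩ VA α) (range Φ) = (incS hsub).comp (incR (GA α) (VA α)) := rfl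
    rw [h2, HH.map_comp, ha, map_zero]
  have h3 := (mv.exact_sum (S2 × NN) (GA α ∩ VA α) (range Φ)
    ((isOpen_GA α).inter (isOpen_VA α)) hΦ.isOpen_range 3 a 0).mp (by
      rw [h1, map_zero, add_zero])
  obtain ⟨w, hw1, hw2⟩ := h3
  have h4 : w = 0 := by
    apply hinj2
    rw [map_zero, ← neg_eq_zero]
    exact hw2.symm
  rw [hw1, h4, map_zero]

end Pool.Agent.H33.KU
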