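import Pool.Agent.H61.KU.TT

/-!
Module PD2 (T12) of the board ku_modules (MP_c11ac4_gt): the two parts of `PD δ`.
-/

set_option autoImplicit false

open Set Topology
open Pool.Agent.H59 Pool.Agent.H64.LB Pool.Agent.H24.LB Pool.Agent.H61.KU
open scoped unitInterval

namespace Pool.Agent.H33.KU

/-- scaling of the first coordinates, `[u : c] ↦ [t u : c]` -/
noncomputable def scal1 (t : ℝ) : PN 2 → PN 2 :=
  Quotient.lift (fun v : NZ 2 => P3 ((t : ℂ) • ![v.1 0, v.1 1]) (v.1 2)) (by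
    rintro v w ⟨c, hc, h⟩
    have h0 : (![w.1 0, w.1 1] : Fin 2 → ℂ) = c • ![v.1 0, v.1 1] := by
      funext i
      fin_cases i <;> simp [h]
    have h2 : w.1 2 = c * v.1 2 := by
      rw [h, Pi.smul_apply, smul_eq_mul]
    change P3 ((t : ℂ) • ![v.1 0, v.1 1]) (v.1 2) = P3 ((t : ℂ) • ![w.1 0, w.1 1]) (w.1 2)
    rw [h0, h2, smul_comm]
    by_cases hz : (((t : ℂ) • ![v.1 0, v.1 1] : Fin 2 → ℂ) = 0 ∧ v.1 2 = 0)
    · rw [hz.1, hz.2, smul_zero, mul_zero]
    · exact (P3_smul c hc hz).symm)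

theorem scal1_P3 (t : ℝ) {u : Fin 2 → ℂ} {c : ℂ} (h : ¬ (u = 0 ∧ c = 0)) :
    scal1 t (P3 u c) = P3 ((t : ℂ) • u) c := by
  have h' : v3 u c ≠ 0 := by rw [Ne, v3_eq_zero]; exact h
  rw [P3_eq h']
  change P3 ((t : ℂ) • ![v3 u c 0, v3 u c 1]) (v3 u c 2) = P3 ((t : ℂ) • u) c
  have e : (![v3 u c 0, v3 u c 1] : Fin 2 → ℂ) = u := by
    funext i
    fin_cases i <;> simp [v3]
  rw [e]
  rfl

theorem last_ne {v : NZ 2} (h : pt v ∉ range iota) : v.1 2 ≠ 0 := by
  intro h2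
  apply h
  have hv := v3_zero v.1
  have hu : (![v.1 0, v.1 1] : Fin 2 → ℂ) ≠ 0 := by
    intro h0
    apply v.2
    rw [← hv, h0, h2, v3_eq_zero]
    exact ⟨rfl, rfl⟩
  refine ⟨P2 ![v.1 0, v.1 1], ?_⟩
  have h3 : v3 ![v.1 0, v.1 1] 0 ≠ 0 := by
    rw [Ne, v3_eq_zero]
    exact fun h => hu h.1
  rw [iota_P2 hu, P3_eq h3]
  refine congrArg pt (Subtype.ext ?_)
  change v3 ![v.1 0, v.1 1] 0 = v.1
  rw [← h2]
  exact hv

theorem P3_not_mem {u : Fin 2 → ℂ} {c : ℂ} (h : c ≠ 0) : P3 u c ∉ range iota := by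
  rintro ⟨l, hl⟩
  obtain ⟨u', hu', rfl⟩ := exists_P2 l
  rw [iota_P2 hu', P3_eq_iff (fun h => hu' h.1) (fun h' => h h'.2)] at hl
  obtain ⟨a, ha, -, h2⟩ := hl
  rw [mul_zero] at h2
  exact h h2

theorem continuous_scal1 :
    Continuous (fun p : {p : I × PN 2 // p.2 ∉ range iota} => scal1 (p.1.1 : ℝ) p.1.2) := by
  refine continuous_desc {p : I × PN 2 | p.2 ∉ range iota}
    (fun p => scal1 (p.1.1 : ℝ) p.1.2) ?_
  change Continuous (fun p : {p : I × NZ 2 // (p.1, pt p.2) ∈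
    {p : I × PN 2 | p.2 ∉ range iota}} =>
      P3 (((p.1.1 : ℝ) : ℂ) • ![p.1.2.1 0, p.1.2.1 1]) (p.1.2.1 2))
  have hv : ∀ i, Continuous (fun p : {p : I × NZ 2 // (p.1, pt p.2) ∈
      {p : I × PN 2 | p.2 ∉ range iota}} => p.1.2.1 i) := fun i =>
    (continuous_apply i).comp (continuous_subtype_val.comp
      (continuous_snd.comp continuous_subtype_val))
  have ht : Continuous (fun p : {p : I × NZ 2 // (p.1, pt p.2) ∈
      {p : I × PN 2 | p.2 ∉ range iota}} => ((p.1.1 : ℝ) : ℂ)) :=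
    Complex.continuous_ofReal.comp
      (continuous_subtype_val.comp (continuous_fst.comp continuous_subtype_val))
  have hu : Continuous (fun p : {p : I × NZ 2 // (p.1, pt p.2) ∈
      {p : I × PN 2 | p.2 ∉ range iota}} => (![p.1.2.1 0, p.1.2.1 1] : Fin 2 → ℂ)) := by
    refine continuous_pi fun i => ?_
    fin_cases i
    · exact hv 0
    · exact hv 1
  refine continuous_P3 (ht.smul hu) (hv 2) ?_
  rintro p ⟨-, h2⟩
  exact last_ne (v := p.1.2) p.2 h2

variable (δ : C(S2, PN 1))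

/-- the part away from `q0` -/
abbrev O1 : Set (PD δ) := {p | p.1.2 ≠ q0}

/-- the part away from the line at infinity -/
abbrev O2 : Set (PD δ) := {p | p.1.2 ∉ range iota}

theorem O1_cases (x : O1 δ) :
    ∃ (u : Fin 2 → ℂ) (c : ℂ), u ≠ 0 ∧ x.1.1.2 = P3 u c ∧ P2 u = δ x.1.1.1 := by
  obtain ⟨u, c, h, he, h3⟩ := x.1.2
  have hu : u ≠ 0 := by
    rintro rfl
    apply x.2
    rw [he]
    exact P3_zero (fun hc => h ⟨rfl, hc⟩)
  refine ⟨u, c, hu, he, ?_⟩
  rcases h3 with h3 | h3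
  · exact absurd h3 hu
  · exact h3

theorem O2_cases (x : O2 δ) :
    ∃ (u : Fin 2 → ℂ) (c : ℂ), c ≠ 0 ∧ x.1.1.2 = P3 u c ∧ (u = 0 ∨ P2 u = δ x.1.1.1) := by
  obtain ⟨u, c, h, he, h3⟩ := x.1.2
  refine ⟨u, c, ?_, he, h3⟩
  rintro rfl
  have hu : u ≠ 0 := fun hu => h ⟨hu, rfl⟩
  apply x.2
  rw [he]
  exact ⟨P2 u, iota_P2 hu⟩

/-- first coordinate -/
def PR : C(PD δ, S2) := ⟨fun x => x.1.1, continuous_fst.comp continuous_subtype_val⟩

/-- second coordinate -/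
def PY : C(PD δ, PN 2) := ⟨fun x => x.1.2, continuous_snd.comp continuous_subtype_val⟩

theorem mem_s1 (s : S2) : (s, iota (δ s)) ∈ PDs δ := by
  obtain ⟨u, hu, he⟩ := exists_P2 (δ s)
  refine ⟨u, 0, fun h => hu h.1, ?_, Or.inr he.symm⟩
  change iota (δ s) = P3 u 0
  rw [he, iota_P2 hu]

theorem ne_s1 (s : S2) : iota (δ s) ≠ q0 := by
  obtain ⟨u, hu, he⟩ := exists_P2 (δ s)
  rw [he, iota_P2 hu]
  exact P3_ne_q0 hu

/-- the section at infinity -/
noncomputable def s1 : C(S2, O1 δ) where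
  toFun s := ⟨⟨(s, iota (δ s)), mem_s1 δ s⟩, ne_s1 δ s⟩
  continuous_toFun := by
    refine Continuous.subtype_mk (Continuous.subtype_mk ?_ _) _
    exact continuous_id.prodMk (iota.continuous.comp δ.continuous)

theorem mem_k1 (t : I) (x : O1 δ) :
    (x.1.1.1, (scalN (t, ⟨x.1.1.2, x.2⟩)).1) ∈ PDs δ := by
  obtain ⟨u, c, hu, he, h2⟩ := O1_cases δ x
  have e : (⟨x.1.1.2, x.2⟩ : NN) = PNN u c hu := Subtype.ext he
  rw [e, scalN_PNN]
  exact ⟨u, (t : ℝ) * c, fun h => hu h.1, rfl, Or.inr h2⟩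

/-- the first homotopy -/
noncomputable def k1 : ((s1 δ).comp ((PR δ).comp (inc (O1 δ)))).Homotopy
    (ContinuousMap.id (O1 δ)) where
  toFun p := ⟨⟨(p.2.1.1.1, (scalN (p.1, ⟨p.2.1.1.2, p.2.2⟩)).1), mem_k1 δ p.1 p.2⟩,
    (scalN (p.1, ⟨p.2.1.1.2, p.2.2⟩)).2⟩
  continuous_toFun := by
    refine Continuous.subtype_mk (Continuous.subtype_mk ?_ _) _
    have h1 : Continuous (fun p : I × O1 δ => p.2.1.1.1) :=
      continuous_fst.comp (continuous_subtype_val.comp (continuous_subtype_val.comp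
        continuous_snd))
    have h2 : Continuous (fun p : I × O1 δ => (⟨p.2.1.1.2, p.2.2⟩ : NN)) :=
      (continuous_snd.comp (continuous_subtype_val.comp (continuous_subtype_val.comp
        continuous_snd))).subtype_mk _
    exact h1.prodMk (continuous_subtype_val.comp (scalN.continuous.comp
      (continuous_fst.prodMk h2)))
  map_zero_left x := by
    obtain ⟨u, c, hu, he, h2⟩ := O1_cases δ x
    apply Subtype.ext
    apply Subtype.ext
    change (x.1.1.1, (scalN (0, ⟨x.1.1.2, x.2⟩)).1) = (x.1.1.1, iota (δ x.1.1.1))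
    have e : (⟨x.1.1.2, x.2⟩ : NN) = PNN u c hu := Subtype.ext he
    rw [e, scalN_PNN, ← h2, iota_P2 hu, Set.Icc.coe_zero, Complex.ofReal_zero, zero_mul]
    rfl
  map_one_left x := by
    obtain ⟨u, c, hu, he, h2⟩ := O1_cases δ x
    apply Subtype.ext
    apply Subtype.ext
    change (x.1.1.1, (scalN (1, ⟨x.1.1.2, x.2⟩)).1) = x.1.1
    have e : (⟨x.1.1.2, x.2⟩ : NN) = PNN u c hu := Subtype.ext he
    rw [e, scalN_PNN, Set.Icc.coe_one, Complex.ofReal_one, one_mul]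
    change (x.1.1.1, P3 u c) = x.1.1
    rw [← he]

/-- the section at `q0` -/
noncomputable def s2 : C(S2, O2 δ) where
  toFun s := ⟨⟨(s, q0), ⟨0, 1, by simp, q0_eq, Or.inl rfl⟩⟩, by
    change q0 ∉ range iota
    rw [q0_eq]
    exact P3_not_mem one_ne_zero⟩
  continuous_toFun := by
    refine Continuous.subtype_mk (Continuous.subtype_mk ?_ _) _
    exact continuous_id.prodMk continuous_const

theorem k2_eq (t : I) (x : O2 δ) {u : Fin 2 → ℂ} {c : ℂ} (hc : c ≠ 0) (he : x.1.1.2 = P3 u c) :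
    scal1 (t : ℝ) x.1.1.2 = P3 (((t : ℝ) : ℂ) • u) c := by
  rw [he]
  exact scal1_P3 _ (fun h => hc h.2)

theorem mem_k2 (t : I) (x : O2 δ) : (x.1.1.1, scal1 (t : ℝ) x.1.1.2) ∈ PDs δ := by
  obtain ⟨u, c, hc, he, h2⟩ := O2_cases δ x
  refine ⟨((t : ℝ) : ℂ) • u, c, fun h => hc h.2, k2_eq δ t x hc he, ?_⟩
  by_cases ht : ((t : ℝ) : ℂ) = 0
  · exact Or.inl (by rw [ht, zero_smul])
  · by_cases hu : u = 0
    · exact Or.inl (by rw [hu, smul_zero])
    · rcases h2 with h2 | h2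
      · exact absurd h2 hu
      · refine Or.inr ?_
        rw [P2_smul _ ht hu]
        exact h2

theorem nm_k2 (t : I) (x : O2 δ) : scal1 (t : ℝ) x.1.1.2 ∉ range iota := by
  obtain ⟨u, c, hc, he, h2⟩ := O2_cases δ x
  rw [k2_eq δ t x hc he]
  exact P3_not_mem hc

/-- the second homotopy -/
noncomputable def k2 : ((s2 δ).comp ((PR δ).comp (inc (O2 δ)))).Homotopy
    (ContinuousMap.id (O2 δ)) where
  toFun p := ⟨⟨(p.2.1.1.1, scal1 (p.1 : ℝ) p.2.1.1.2), mem_k2 δ p.1 p.2⟩, nm_k2 δ p.1 p.2⟩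
  continuous_toFun := by
    refine Continuous.subtype_mk (Continuous.subtype_mk ?_ _) _
    have h1 : Continuous (fun p : I × O2 δ => p.2.1.1.1) :=
      continuous_fst.comp (continuous_subtype_val.comp (continuous_subtype_val.comp
        continuous_snd))
    have h2 : Continuous (fun p : I × O2 δ =>
        (⟨(p.1, p.2.1.1.2), p.2.2⟩ : {p : I × PN 2 // p.2 ∉ range iota})) :=
      (continuous_fst.prodMk (continuous_snd.comp (continuous_subtype_val.comp
        (continuous_subtype_val.comp continuous_snd)))).subtype_mk _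
    exact h1.prodMk (continuous_scal1.comp h2)
  map_zero_left x := by
    obtain ⟨u, c, hc, he, h2⟩ := O2_cases δ x
    apply Subtype.ext
    apply Subtype.ext
    change (x.1.1.1, scal1 ((0 : I) : ℝ) x.1.1.2) = (x.1.1.1, q0)
    rw [k2_eq δ 0 x hc he, Set.Icc.coe_zero, Complex.ofReal_zero, zero_smul, P3_zero hc]
  map_one_left x := by
    obtain ⟨u, c, hc, he, h2⟩ := O2_cases δ x
    apply Subtype.ext
    apply Subtype.ext
    change (x.1.1.1, scal1 ((1 : I) : ℝ) x.1.1.2) = x.1.1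
    rw [k2_eq δ 1 x hc he, Set.Icc.coe_one, Complex.ofReal_one, one_smul, ← he]

theorem inj_of_htp (hHM : T_HM) {X Y : Type} [TopologicalSpace X] [TopologicalSpace Y]
    (s : C(Y, X)) (p : C(X, Y)) (h : (s.comp p).Homotopic (ContinuousMap.id X)) (q : ℕ)
    (z : HH (ZMod 2) q X) : HH.map (ZMod 2) q s (HH.map (ZMod 2) q p z) = z := by
  rw [← HH.map_comp, hHM (ZMod 2) X X _ _ h q, HH.map_id]

theorem pf_pd2 (hHM : T_HM) (hO : T_CON) : T_PD2 := by
  intro δ hinj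
  have hT2 : T2Space (PN 2) := (pnt 2).2
  have hC1 : CompactSpace (PN 1) := (pnt 1).1
  refine ⟨?_, ?_, ?_⟩
  · exact isOpen_ne_fun (PY δ).continuous continuous_const
  · have hcl : IsClosed (range iota) := (isCompact_range iota.continuous).isClosed
    exact hcl.isOpen_compl.preimage (PY δ).continuous
  · intro a b hab
    have h1 := inj_of_htp hHM (s1 δ) ((PR δ).comp (inc (O1 δ))) ⟨k1 δ⟩ 2 a
    have h2 := inj_of_htp hHM (s2 δ) ((PR δ).comp (inc (O2 δ))) ⟨k2 δ⟩ 2 b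
    have hy1 : HH.map (ZMod 2) 2 ((PY δ).comp (inc (O1 δ))) a =
        HH.map (ZMod 2) 2 (iota.comp δ) (HH.map (ZMod 2) 2 ((PR δ).comp (inc (O1 δ))) a) := by
      conv_lhs => rw [← h1]
      rw [← HH.map_comp]
      rfl
    have hy2 : HH.map (ZMod 2) 2 ((PY δ).comp (inc (O2 δ))) b = 0 := by
      conv_lhs => rw [← h2]
      rw [← HH.map_comp]
      have e : ((PY δ).comp (inc (O2 δ))).comp (s2 δ) =
          (ContinuousMap.const PUnit.{1} q0).comp (ContinuousMap.const S2 PUnit.unit) := rfl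
      rw [e, HH.map_comp]
      have hs : Subsingleton (HH (ZMod 2) 2 PUnit.{1}) := hO (ZMod 2) PUnit.{1} 1
      rw [Subsingleton.elim (HH.map (ZMod 2) 2 (ContinuousMap.const S2 PUnit.unit) _)
        (0 : HH (ZMod 2) 2 PUnit.{1}), map_zero]
    have e1 : HH.map (ZMod 2) 2 ((PY δ).comp (inc (O1 δ))) a = 0 := by
      have h3 := congrArg (HH.map (ZMod 2) 2 (PY δ)) hab
      rw [map_add, ← HH.map_comp, ← HH.map_comp, map_zero] at h3
      have h4 : HH.map (ZMod 2) 2 ((PY δ).comp (inc (O1 δ))) a +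
        HH.map (ZMod 2) 2 ((PY δ).comp (inc (O2 δ))) b = 0 := h3
      rwa [hy2, add_zero] at h4
    have e2 : HH.map (ZMod 2) 2 ((PR δ).comp (inc (O1 δ))) a = 0 := by
      apply hinj
      rw [← hy1, e1, map_zero]
    have ha : a = 0 := by rw [← h1, e2, map_zero]
    refine ⟨ha, ?_⟩
    have e3 : HH.map (ZMod 2) 2 ((PR δ).comp (inc (O2 δ))) b = 0 := by
      have h3 := congrArg (HH.map (ZMod 2) 2 (PR δ)) hab
      rw [map_add, ← HH.map_comp, ← HH.map_comp, map_zero] at h3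
      have h4 : HH.map (ZMod 2) 2 ((PR δ).comp (inc (O1 δ))) a +
        HH.map (ZMod 2) 2 ((PR δ).comp (inc (O2 δ))) b = 0 := h3
      rwa [e2, zero_add] at h4
    rw [← h2, e3, map_zero]

end Pool.Agent.H33.KU
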